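import Mathlib
import Pool.Agent.Work.MP_a5099b_nt.H.HDefs
import Pool.Agent.Work.MP_a5099b_nt.H.Eigen
import Pool.Agent.Work.MP_a5099b_nt.B.EndR

/-!
# Module M.Two (size M): two superlattices of index `q` with multiplication by `√(-l)`

Write `s = sq l` (`s² = -l`), `e ^ 2 + l = q c`. For `f ∈ {e, -e}` let `E f := {z | q z ∈ L ∧ (s - f) z ∈ L}` (a submodule, as in
H/Eigen.lean `eigen_mem`, with the roles of `q` and `l` interchanged). `L ≤ E f ≤ M := q⁻¹ • L`, `relIndex L M = q * q` (`relIndex_smul`, copy from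
`eigen_mem`), `relIndex L (E f) * relIndex (E f) M = q * q`, so `relIndex L (E f) ∈ {1, q, q²}` (`Nat.dvd_prime_pow`).

NO MULTIPLIER: `(s - f) / q` is no multiplier of `L` (`trace_norm`: its trace `-2 f / q` and its norm `(f² + l) / q²` are integers, so `q ∣ 2 f`, `q ∣ f`, `q ∣ l`, impossible;
copy from `eigen_mem`); the same for `-f`.
* `q²`: then `relIndex (E f) M = 1`, `M ≤ E f`, so `(s - f) / q` is a multiplier.
* `1`: then `E f ≤ L`. For `z ∈ L` the element `w = (s + f) / q * z` has `q w ∈ L` and `(s - f) w = -(c z) ∈ L`, so `w ∈ E f ≤ L`: `(s + f) / q` is a multiplier.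
So `Sup q L (E f)`; it is a lattice (`IsLat`: use how `Sup` lattices are shown in B/H, e.g. `IsLat` of a submodule between `L` and `q⁻¹ • L`: CM/Bas or K/LLat `LI_lat`;
a submodule between two lattices is a lattice). `HasSq l (E f)`: `s` commutes with everything. `E e ≠ E (-e)`: otherwise for `z ∈ E e`: `(s - e) z, (s + e) z ∈ L`, so
`2 e z ∈ L` and `q z ∈ L`, `q` prime to `2 e` (`q ∣ e` would give `q ∣ l`), so `z ∈ L`, `E e ≤ L`, contradiction with the index `q ≠ 1`.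
-/

set_option autoImplicit false
set_option linter.unusedSectionVars false

namespace Pool.Agent.SS.MB

open Pool.Agent.Work.CM
open Pool.Agent.SS.HB
open scoped Pointwise

private theorem int_mul_mem {L : Submodule ℤ ℂ} (n : ℤ) {z : ℂ} (hz : z ∈ L) :
    (n : ℂ) * z ∈ L := by
  rw [← zsmul_eq_mul]
  exact L.smul_mem n hz

/-- `(√(-l) - f) / q` is no multiplier. -/
private theorem no_mult {q l : ℕ} (hq : q.Prime) (hl : l.Prime) (hq2 : q ≠ 2) (hlq : l ≠ q)
    (f : ℤ) {L : Submodule ℤ ℂ} (hL : IsLat L)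
    (hmulL : ∀ x ∈ L, ((sq l - f) * (q : ℂ)⁻¹) * x ∈ L) : False := by
  have hq0 : (q : ℂ) ≠ 0 := by exact_mod_cast hq.ne_zero
  obtain ⟨t, N, ht, hN⟩ := trace_norm hL hmulL
  have hc : starRingEnd ℂ ((sq l - f) * (q : ℂ)⁻¹) = (-sq l - f) * (q : ℂ)⁻¹ := by
    rw [map_mul, map_sub, conj_sq, map_inv₀]
    simp
  rw [hc] at ht hN
  have ht' : (-2 * f : ℤ) = t * q := by
    have h5 : (-2 * (f : ℂ)) = t * q := by
      rw [← ht]
      field_simp
      ring
    exact_mod_cast h5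
  have hN' : (f ^ 2 + l : ℤ) = N * q ^ 2 := by
    have h5 : ((f : ℂ) ^ 2 + l) = N * q ^ 2 := by
      rw [← hN]
      have h6 := sq_mul_self l
      field_simp
      linear_combination h6
    exact_mod_cast h5
  have hqp : Prime (q : ℤ) := Nat.prime_iff_prime_int.1 hq
  have hqf : (q : ℤ) ∣ f := by
    have h5 : (q : ℤ) ∣ 2 * f := ⟨-t, by linear_combination (-1) * ht'⟩
    rcases hqp.dvd_or_dvd h5 with h6 | h6
    · exfalso
      have h7 : q ∣ 2 := by exact_mod_cast h6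
      exact hq2 ((Nat.prime_dvd_prime_iff_eq hq Nat.prime_two).1 h7)
    · exact h6
  have hql : (q : ℤ) ∣ l := by
    have h5 : (l : ℤ) = N * q ^ 2 - f ^ 2 := by linear_combination hN'
    rw [h5]
    exact dvd_sub (Dvd.dvd.mul_left (dvd_pow_self _ two_ne_zero) _) (dvd_pow hqf two_ne_zero)
  have h6 : q ∣ l := by exact_mod_cast hql
  exact hlq ((Nat.prime_dvd_prime_iff_eq hq hl).1 h6).symm

/-- The elements killed by `q` and `√(-l) - f` modulo `L`. -/
private def EE (q l : ℕ) (f : ℤ) (L : Submodule ℤ ℂ) : Submodule ℤ ℂ where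
  carrier := {x | (q : ℂ) * x ∈ L ∧ (sq l - f) * x ∈ L}
  add_mem' := fun hx hy => by
    refine ⟨?_, ?_⟩
    · rw [mul_add]
      exact L.add_mem hx.1 hy.1
    · rw [mul_add]
      exact L.add_mem hx.2 hy.2
  zero_mem' := by
    refine ⟨?_, ?_⟩
    · rw [mul_zero]
      exact L.zero_mem
    · rw [mul_zero]
      exact L.zero_mem
  smul_mem' := fun n x hx => by
    refine ⟨?_, ?_⟩
    · rw [mul_smul_comm]
      exact L.smul_mem n hx.1
    · rw [mul_smul_comm]
      exact L.smul_mem n hx.2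

private theorem mem_EE {q l : ℕ} {f : ℤ} {L : Submodule ℤ ℂ} {x : ℂ} :
    x ∈ EE q l f L ↔ (q : ℂ) * x ∈ L ∧ (sq l - f) * x ∈ L := Iff.rfl

private theorem sup_EE {q l : ℕ} (hq : q.Prime) (hl : l.Prime) (hq2 : q ≠ 2) (hlq : l ≠ q) {f : ℤ}
    (hf : (q : ℤ) ∣ f ^ 2 + l) {L : Submodule ℤ ℂ} (hL : IsLat L) (hs : HasSq l L) :
    Sup q L (EE q l f L) := by
  have hq0 : (q : ℂ) ≠ 0 := by exact_mod_cast hq.ne_zero
  let M : Submodule ℤ ℂ := (q : ℂ)⁻¹ • L
  have hM : ∀ x : ℂ, x ∈ M ↔ (q : ℂ) * x ∈ L := by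
    intro x
    show x ∈ (q : ℂ)⁻¹ • L ↔ _
    rw [mem_smul' (inv_ne_zero hq0), inv_inv]
  have hLE : L ≤ EE q l f L := by
    intro x hx
    refine ⟨int_mul_mem q hx, ?_⟩
    rw [sub_mul]
    exact L.sub_mem (hs x hx) (int_mul_mem f hx)
  have hEM : EE q l f L ≤ M := fun x hx => (hM x).2 hx.1
  have hLM : L ≤ M := fun x hx => (hM x).2 (int_mul_mem q hx)
  have hlatM : IsLat M := hL.smul (inv_ne_zero hq0)
  have hqM : (q : ℂ) • M = L := by
    show (q : ℂ) • ((q : ℂ)⁻¹ • L) = L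
    rw [smul_smul, mul_inv_cancel₀ hq0, one_smul]
  have hidx : L.toAddSubgroup.relIndex M.toAddSubgroup = q * q := by
    have h1 := relIndex_smul hlatM hq0 (by rw [hqM]; exact hLM)
    rw [hqM] at h1
    have h2 : Complex.normSq (q : ℂ) = ((q * q : ℕ) : ℝ) := by
      rw [Complex.normSq_natCast]
      push_cast
      ring
    rw [h2] at h1
    exact_mod_cast h1
  have hmul := AddSubgroup.relIndex_mul_relIndex L.toAddSubgroup (EE q l f L).toAddSubgroup
    M.toAddSubgroup hLE hEM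
  rw [hidx] at hmul
  have hlatE : IsLat (EE q l f L) := by
    refine isLat_of_relIndex hL hLE ?_
    intro h0
    rw [h0, zero_mul] at hmul
    exact (Nat.mul_pos hq.pos hq.pos).ne hmul
  refine ⟨hL, hlatE, hLE, ?_⟩
  have hdvd : L.toAddSubgroup.relIndex (EE q l f L).toAddSubgroup ∣ q ^ 2 := by
    rw [pow_two]
    exact Dvd.intro _ hmul
  obtain ⟨k, hk, hk'⟩ := (Nat.dvd_prime_pow hq).1 hdvd
  interval_cases k
  · exfalso
    rw [pow_zero] at hk'
    have hEL : EE q l f L ≤ L := AddSubgroup.relIndex_eq_one.1 hk'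
    refine no_mult hq hl hq2 hlq (-f) hL ?_
    intro x hx
    apply hEL
    obtain ⟨c, hc⟩ := hf
    have hc' : (f : ℂ) ^ 2 + l = q * c := by exact_mod_cast hc
    refine ⟨?_, ?_⟩
    · have h1 : (q : ℂ) * ((sq l - (-f : ℤ)) * (q : ℂ)⁻¹ * x) = sq l * x + (f : ℂ) * x := by
        push_cast
        field_simp
        ring
      rw [h1]
      exact L.add_mem (hs x hx) (int_mul_mem f hx)
    · have h1 : (sq l - (f : ℂ)) * ((sq l - (-f : ℤ)) * (q : ℂ)⁻¹ * x) = ((-c : ℤ) : ℂ) * x := by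
        have h2 := sq_mul_self l
        push_cast
        field_simp
        linear_combination x * h2 - x * hc'
      rw [h1]
      exact int_mul_mem _ hx
  · rw [hk', pow_one]
  · exfalso
    rw [hk', pow_two] at hmul
    have h2 : (EE q l f L).toAddSubgroup.relIndex M.toAddSubgroup = 1 :=
      Nat.eq_of_mul_eq_mul_left (Nat.mul_pos hq.pos hq.pos) (hmul.trans (mul_one _).symm)
    have hME : M ≤ EE q l f L := AddSubgroup.relIndex_eq_one.1 h2
    refine no_mult hq hl hq2 hlq f hL ?_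
    intro x hx
    have h3 : (q : ℂ)⁻¹ * x ∈ M := by
      rw [hM, mul_inv_cancel_left₀ hq0]
      exact hx
    have h4 := (hME h3).2
    rw [mul_assoc]
    exact h4

private theorem hasSq_EE {q l : ℕ} {f : ℤ} {L : Submodule ℤ ℂ} (hs : HasSq l L) :
    HasSq l (EE q l f L) := by
  intro x hx
  refine ⟨?_, ?_⟩
  · rw [mul_left_comm]
    exact hs _ hx.1
  · rw [mul_left_comm]
    exact hs _ hx.2

theorem two_stable {q l : ℕ} (hq : q.Prime) (hl : l.Prime) (hq2 : q ≠ 2) (hlq : l ≠ q) {e : ℤ}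
    (he : (q : ℤ) ∣ e ^ 2 + l) {L : Submodule ℤ ℂ} (hL : IsLat L) (hs : HasSq l L) :
    ∃ A B : Submodule ℤ ℂ, Sup q L A ∧ Sup q L B ∧ HasSq l A ∧ HasSq l B ∧ A ≠ B := by
  have he' : (q : ℤ) ∣ (-e) ^ 2 + l := by rw [neg_sq]; exact he
  have hA := sup_EE hq hl hq2 hlq he hL hs
  have hB := sup_EE hq hl hq2 hlq he' hL hs
  refine ⟨EE q l e L, EE q l (-e) L, hA, hB, hasSq_EE hs, hasSq_EE hs, ?_⟩
  intro hAB
  have hqp : Prime (q : ℤ) := Nat.prime_iff_prime_int.1 hq
  have hqe : ¬ (q : ℤ) ∣ 2 * e := by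
    intro h5
    have hqf : (q : ℤ) ∣ e := by
      rcases hqp.dvd_or_dvd h5 with h6 | h6
      · exfalso
        have h7 : q ∣ 2 := by exact_mod_cast h6
        exact hq2 ((Nat.prime_dvd_prime_iff_eq hq Nat.prime_two).1 h7)
      · exact h6
    have hql : (q : ℤ) ∣ l := (Int.dvd_add_right (dvd_pow hqf two_ne_zero)).1 he
    have h6 : q ∣ l := by exact_mod_cast hql
    exact hlq ((Nat.prime_dvd_prime_iff_eq hq hl).1 h6).symm
  have hco : IsCoprime (q : ℤ) (2 * e) := by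
    rw [Prime.coprime_iff_not_dvd hqp]
    exact hqe
  obtain ⟨a, b, hab⟩ := hco
  have hEL : EE q l e L ≤ L := by
    intro z hz
    have h1 : (sq l - e) * z ∈ L := hz.2
    have h2 : (sq l - ((-e : ℤ) : ℂ)) * z ∈ L := by
      rw [hAB] at hz
      exact hz.2
    have h3 : ((2 * e : ℤ) : ℂ) * z ∈ L := by
      have h4 : ((2 * e : ℤ) : ℂ) * z = (sq l - ((-e : ℤ) : ℂ)) * z - (sq l - e) * z := by
        push_cast
        ring
      rw [h4]
      exact L.sub_mem h2 h1
    have h5 : z = (a : ℂ) * ((q : ℂ) * z) + (b : ℂ) * (((2 * e : ℤ) : ℂ) * z) := by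
      have h6 : ((a * q + b * (2 * e) : ℤ) : ℂ) = 1 := by rw [hab]; simp
      push_cast at h6 ⊢
      linear_combination (-z) * h6
    rw [h5]
    exact L.add_mem (int_mul_mem a hz.1) (int_mul_mem b h3)
  have h1 : L.toAddSubgroup.relIndex (EE q l e L).toAddSubgroup = 1 :=
    AddSubgroup.relIndex_eq_one.2 hEL
  rw [hA.idx] at h1
  exact hq.one_lt.ne' h1

end Pool.Agent.SS.MB
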