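import Mathlib
import Pool.Agent.Work.MP_a5099b_nt.H.HDefs

/-!
# Module M.Val: a valuation subring of `ℂ` above `q` and the reduction of algebraic integers
-/

set_option autoImplicit false

namespace Pool.Agent.SS.MB

theorem exists_val {q : ℕ} (hq : q.Prime) :
    ∃ (O : ValuationSubring ℂ) (k : Type) (_ : Field k) (_ : CharP k q)
      (red : integralClosure ℤ ℂ →+* k),
      ∀ z : integralClosure ℤ ℂ, O.valuation (z : ℂ) ≤ 1 ∧
        (red z = 0 ↔ O.valuation (z : ℂ) < 1) := by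
  have hne : ¬ IsUnit ((q : ℕ) : integralClosure ℤ ℂ) := by
    rintro ⟨u, hu⟩
    have h1 : ((u⁻¹ : (integralClosure ℤ ℂ)ˣ) : integralClosure ℤ ℂ) * (q : integralClosure ℤ ℂ) = 1 := by
      rw [← hu, Units.inv_mul]
    have h2 : IsIntegral ℤ ((((u⁻¹ : (integralClosure ℤ ℂ)ˣ) : integralClosure ℤ ℂ)) : ℂ) :=
      ((u⁻¹ : (integralClosure ℤ ℂ)ˣ) : integralClosure ℤ ℂ).2
    have h3 : ((((u⁻¹ : (integralClosure ℤ ℂ)ˣ) : integralClosure ℤ ℂ)) : ℂ) = algebraMap ℚ ℂ ((q : ℚ)⁻¹) := by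
      have h4 := congrArg (fun x : integralClosure ℤ ℂ => (x : ℂ)) h1
      simp only [MulMemClass.coe_mul, OneMemClass.coe_one] at h4
      have hq0 : (q : ℂ) ≠ 0 := Nat.cast_ne_zero.2 hq.ne_zero
      rw [map_inv₀, map_natCast]
      refine eq_inv_of_mul_eq_one_left ?_
      simpa using h4
    rw [h3, isIntegral_algebraMap_iff (algebraMap ℚ ℂ).injective] at h2
    obtain ⟨n, hn⟩ := IsIntegrallyClosed.isIntegral_iff.1 h2
    have hq0 : (q : ℚ) ≠ 0 := Nat.cast_ne_zero.2 hq.ne_zero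
    have h5 : (n : ℚ) * q = 1 := by
      have : (n : ℚ) = (q : ℚ)⁻¹ := hn
      rw [this, inv_mul_cancel₀ hq0]
    have h6 : n * (q : ℤ) = 1 := by exact_mod_cast h5
    have h7 : IsUnit (q : ℤ) := IsUnit.of_mul_eq_one n (by rw [mul_comm]; exact h6)
    rw [Int.ofNat_isUnit, Nat.isUnit_iff] at h7
    exact hq.one_lt.ne' h7
  have htop : Ideal.span {((q : ℕ) : (integralClosure ℤ ℂ).toSubring)} ≠ ⊤ :=
    Ideal.span_singleton_ne_top hne
  obtain ⟨O, hO, hI⟩ := Ideal.image_subset_nonunits_valuationSubring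
    (A := (integralClosure ℤ ℂ).toSubring) _ htop
  have hqO : (q : ℂ) ∈ O.nonunits := by
    refine hI ⟨((q : ℕ) : (integralClosure ℤ ℂ).toSubring), Ideal.mem_span_singleton_self _, ?_⟩
    rfl
  have hle : ∀ z : integralClosure ℤ ℂ, (z : ℂ) ∈ O := fun z => hO z.2
  let inc : integralClosure ℤ ℂ →+* O := Subring.inclusion (S := (integralClosure ℤ ℂ).toSubring) (T := O.toSubring) hO
  have hinc : ∀ z : integralClosure ℤ ℂ, ((inc z : O) : ℂ) = z := fun z => rfl
  refine ⟨O, IsLocalRing.ResidueField O, inferInstance, ?_,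
    (IsLocalRing.residue O).comp inc, fun z => ⟨?_, ?_⟩⟩
  · refine (CharP.charP_iff_prime_eq_zero hq).2 ?_
    have h1 : ((q : ℕ) : IsLocalRing.ResidueField O) = IsLocalRing.residue O ((q : ℕ) : O) := by
      rw [map_natCast]
    rw [h1, IsLocalRing.residue_eq_zero_iff, O.valuation_lt_one_iff]
    have h2 := O.mem_nonunits_iff.1 hqO
    simpa using h2
  · exact (O.valuation_le_one_iff _).2 (hle z)
  · rw [RingHom.comp_apply, IsLocalRing.residue_eq_zero_iff, O.valuation_lt_one_iff, hinc]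

end Pool.Agent.SS.MB
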