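import Mathlib
import Pool.Agent.Work.MP_a5099b_nt.L.Cyc
import Pool.Agent.Work.MP_a5099b_nt.M.Two
import Pool.Agent.Work.MP_a5099b_nt.M.Val
import Pool.Agent.Work.MP_a5099b_nt.H.CntRed
import Pool.Agent.Work.MP_a5099b_nt.H.Diag
import Pool.Agent.Work.MP_a5099b_nt.B.Odd
import Pool.Agent.Work.MP_a5099b_nt.SpecB
import Pool.Agent.Work.MP_a5099b_nt.SpecD
import Pool.Agent.Work.MP_a5099b_nt.SpecF

/-!
# Module M.Main: `m_l(y)` is even if `-l` is a square modulo `q`

If `ord_y` of `Φ_l(X, X)` modulo `q` is odd then a root with odd multiplicity in characteristic zero reduces to `y`; it is `j(N)` with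
`√(-l) N ⊆ N`. The invariants of the lattices with multiplication by `√(-l)` reducing to `y` form a finite set `V`, and every point of
`V` has two neighbours (isogenies of degree `q`) in `V`; this contradicts the cycle lemma.
-/

set_option autoImplicit false

namespace Pool.Agent.SS.MB

open Polynomial
open Pool.Agent.Work.CM
open Pool.Agent.SS.HB
open scoped Pointwise

private theorem exists_odd_count (R : Multiset ℂ) (h : Odd (Multiset.card R)) [DecidableEq ℂ] :
    ∃ ρ ∈ R, Odd (R.count ρ) := by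
  by_contra hn
  push Not at hn
  have h1 : Even (∑ a ∈ R.toFinset, R.count a) := by
    refine Finset.even_sum _ fun a ha => ?_
    exact Nat.not_odd_iff_even.1 (hn a (Multiset.mem_toFinset.1 ha))
  rw [Multiset.toFinset_sum_count_eq] at h1
  exact Nat.not_even_iff_odd.2 h h1

theorem diag_even {q l : ℕ} [Fact q.Prime] (h5 : 5 ≤ q) (hl : l.Prime) (hlq : l ≠ q)
    (y : ZMod q) (hy : SSj q y) (h0 : y ≠ 0) (h1 : y ≠ 1728) {e : ℤ}
    (he : (q : ℤ) ∣ e ^ 2 + l) :
    Even (((PhiDiag l).map (Int.castRingHom (ZMod q))).rootMultiplicity y) := by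
  classical
  have hq : q.Prime := Fact.out
  have hq2 : q ≠ 2 := by omega
  rw [← Nat.not_odd_iff_even]
  intro hodd
  obtain ⟨O, k, _, _, red, hred⟩ := exists_val hq
  set i := ZMod.castHom (dvd_refl q) k with hi
  have hinj : Function.Injective i := i.injective
  obtain ⟨n, hn⟩ : ∃ n : ℤ, (n : ZMod q) = y := ⟨y.val, by simp⟩
  -- the multiplicity over `k`
  have hfm : (-PhiDiag l).Monic := by
    rw [Monic, leadingCoeff_neg, PhiDiag_leadingCoeff hl, neg_neg]
  have hmult : ((-PhiDiag l).map (Int.castRingHom k)).rootMultiplicity (i y) =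
      ((PhiDiag l).map (Int.castRingHom (ZMod q))).rootMultiplicity y := by
    rw [Polynomial.eq_rootMultiplicity_map hinj y, Polynomial.map_map,
      RingHom.ext_int (i.comp (Int.castRingHom (ZMod q))) (Int.castRingHom k),
      Polynomial.map_neg, ← count_roots, ← count_roots, roots_neg]
  rw [← hmult, count_redZ red hfm] at hodd
  obtain ⟨ρ, hρ, hρodd⟩ := exists_odd_count _ hodd
  rw [Multiset.mem_filter] at hρ
  obtain ⟨hρroot, hρred⟩ := hρ
  have hroots : ((-PhiDiag l).map (Int.castRingHom ℂ)).roots =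
      ((PhiDiag l).map (Int.castRingHom ℂ)).roots := by
    rw [Polynomial.map_neg, roots_neg]
  rw [Multiset.count_filter_of_pos (p := fun z => RedTo red z (i y)) hρred, hroots,
    count_roots] at hρodd
  rw [hroots] at hρroot
  obtain ⟨τ, hτ⟩ := exists_jL ρ
  have hN : IsLat (tauLat τ) := tauLat_isLat τ
  have hρ0 : ρ ≠ 0 := by
    rintro rfl
    obtain ⟨hm, hr⟩ := hρred
    apply h0
    apply hinj
    rw [map_zero, ← hr]
    exact (map_zero red)
  have hρ1 : ρ ≠ 1728 := by
    rintro rfl
    obtain ⟨hm, hr⟩ := hρred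
    apply h1
    apply hinj
    rw [map_ofNat, ← hr]
    exact (map_ofNat red 1728)
  rw [← hτ] at hρ0 hρ1
  have hsq : HasSq l (tauLat τ) := by
    rw [← odd_ncard hl hN hρ0 hρ1, ← diag_mult hl hN hρ0 hρ1, hτ]
    exact hρodd
  -- valuations
  have hvq : O.valuation (q : ℂ) < 1 := by
    have h3 := (hred (q : integralClosure ℤ ℂ)).2
    have h4 : red (q : integralClosure ℤ ℂ) = 0 := by
      rw [map_natCast]
      exact CharP.cast_eq_zero k q
    simpa using h3.1 h4
  have hq0 : (q : ℂ) ≠ 0 := by exact_mod_cast hq.ne_zero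
  have hG : O.valuation (GGAt q (n : ℂ) (n : ℂ)) = 1 := by
    have hreg := (regular hq h5 y hy h0 h1).2
    rw [ZMod.pow_card] at hreg
    have h3 : red (GGAt q (n : integralClosure ℤ ℂ) (n : integralClosure ℤ ℂ)) ≠ 0 := by
      rw [GGAt_map, map_intCast]
      have h4 : ((n : ℤ) : k) = i y := by
        rw [← hn, map_intCast]
      rw [h4, ← GGAt_map]
      exact (map_ne_zero_iff i hinj).2 hreg
    have h4 : ((GGAt q (n : integralClosure ℤ ℂ) (n : integralClosure ℤ ℂ) :
        integralClosure ℤ ℂ) : ℂ) = GGAt q (n : ℂ) (n : ℂ) := by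
      have := GGAt_map (n := q) (algebraMap (integralClosure ℤ ℂ) ℂ)
        (n : integralClosure ℤ ℂ) (n : integralClosure ℤ ℂ)
      simpa using this
    have h5' := hred (GGAt q (n : integralClosure ℤ ℂ) (n : integralClosure ℤ ℂ))
    rw [h4] at h5'
    exact le_antisymm h5'.1 (not_lt.1 fun h6 => h3 (h5'.2.2 h6))
  have hρv : O.valuation (ρ - n) < 1 := by
    obtain ⟨hm, hr⟩ := hρred
    have h3 := (hred (⟨ρ, hm⟩ - (n : integralClosure ℤ ℂ))).2
    have h4 : red (⟨ρ, hm⟩ - (n : integralClosure ℤ ℂ)) = 0 := by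
      rw [map_sub, hr, map_intCast, ← hn, map_intCast, sub_self]
    simpa using h3.1 h4
  -- the finite set
  let V : Finset ℂ := (((PhiDiag l).map (Int.castRingHom ℂ)).roots.toFinset).filter
    fun x => O.valuation (x - n) < 1 ∧ ∃ N : Submodule ℤ ℂ, IsLat N ∧ HasSq l N ∧ jL N = x
  have hD0 : (PhiDiag l).map (Int.castRingHom ℂ) ≠ 0 := by
    intro h
    have h3 : PhiDiag l = 0 := by
      apply Polynomial.map_injective (Int.castRingHom ℂ) Int.cast_injective
      rw [h, Polynomial.map_zero]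
    have h4 := PhiDiag_leadingCoeff hl
    rw [h3] at h4
    simp at h4
  have hmemV : ∀ N : Submodule ℤ ℂ, IsLat N → HasSq l N → O.valuation (jL N - n) < 1 →
      jL N ∈ V := by
    intro N hN hs hv
    refine Finset.mem_filter.2 ⟨?_, hv, N, hN, hs, rfl⟩
    rw [Multiset.mem_toFinset, mem_roots hD0, IsRoot]
    have h3 := diag_of_hasSq hl hN hs
    rw [aeval_def] at h3
    rw [eval_map]
    exact h3
  have hVe : V = ∅ := by
    refine LB.cycle (O := O) hq hq0 hvq hG V (fun x hx => (Finset.mem_filter.1 hx).2.1) ?_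
    intro x hx
    obtain ⟨-, hxv, N, hN, hs, rfl⟩ := Finset.mem_filter.1 hx
    obtain ⟨A, B, hA, hB, hsA, hsB, hAB⟩ := two_stable hq hl hq2 hlq he hN hs
    have hnear : ∀ A : Submodule ℤ ℂ, Sup q N A → O.valuation (jL A - n) < 1 := fun A hA =>
      LB.root_near hq hvq hxv ((PhiAt_root hq hN _).2 ⟨A, hA, rfl⟩)
    refine ⟨jL A, hmemV A hA.lat' hsA (hnear A hA), jL B, hmemV B hB.lat' hsB (hnear B hB), ?_⟩
    have hA' : A ∈ (supF q N).val := (mem_supF hq hN).2 hA
    have hB' : B ∈ (supF q N).val.erase A :=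
      (Multiset.mem_erase_of_ne (Ne.symm hAB)).2 ((mem_supF hq hN).2 hB)
    refine ⟨(((supF q N).val.erase A).erase B).map jL, ?_⟩
    rw [PhiAt_supF hq hN, Finset.prod_eq_multiset_prod]
    conv_lhs => rw [← Multiset.cons_erase hA', ← Multiset.cons_erase hB']
    simp [Multiset.map_map]
  have hmem := hmemV (tauLat τ) hN hsq (by rw [hτ]; exact hρv)
  rw [hVe] at hmem
  exact absurd hmem (Finset.notMem_empty _)

/-- If `-l` is a square modulo `q` then the number of self isogenies of degree `l` of a regular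
supersingular invariant of the prime field is even. -/
theorem even_of_split {q l : ℕ} [Fact q.Prime] (h5 : 5 ≤ q) (hl : l.Prime) (hl5 : 5 ≤ l)
    (hlq : l ≠ q) (y : ZMod q) (hy : SSj q y) (h0 : y ≠ 0) (h1 : y ≠ 1728) {e : ℤ}
    (he : (q : ℤ) ∣ e ^ 2 + l) : Even ((PhiAt l y).rootMultiplicity y) := by
  have hq : q.Prime := Fact.out
  have hd := diag_even h5 hl hlq y hy h0 h1 he
  let i := algebraMap (ZMod q) (AlgebraicClosure (ZMod q))
  have hinj : Function.Injective i := i.injective
  have : CharP (AlgebraicClosure (ZMod q)) q := charP_of_injective_algebraMap hinj q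
  have hp := parity hq h5 hl hl5 hlq (i y) ((map_ne_zero_iff i hinj).2 h0) (by
    intro h
    apply h1
    apply hinj
    rw [h, map_ofNat])
  have e1 : ((PhiDiag l).map (Int.castRingHom (AlgebraicClosure (ZMod q)))).rootMultiplicity
      (i y) = ((PhiDiag l).map (Int.castRingHom (ZMod q))).rootMultiplicity y := by
    rw [Polynomial.eq_rootMultiplicity_map hinj y, Polynomial.map_map,
      RingHom.ext_int (i.comp (Int.castRingHom (ZMod q))) (Int.castRingHom _)]
  have e2 : (PhiAt l (i y)).rootMultiplicity (i y) = (PhiAt l y).rootMultiplicity y := by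
    rw [Polynomial.eq_rootMultiplicity_map hinj y, PhiAt_map]
  rw [e1, e2] at hp
  have h3 : (PhiAt l y).rootMultiplicity y % 2 = 0 := by
    have h4 := Nat.even_iff.1 hd
    rw [← hp]
    exact h4
  exact Nat.even_iff.2 h3

end Pool.Agent.SS.MB
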